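import Pool.Agent.Helper54.SRD.Basic

/-!
# From the local speed bound to an interval, in one chart
-/

open Set Filter MeasureTheory
open scoped Manifold ContDiff Topology

noncomputable section

namespace Pool.Agent.Helper65.SRD

open Pool.Agent.Helper54.SRD

/-- A local Lipschitz bound for a defect satisfying the triangle inequality is global. -/
theorem chain (a b C : ℝ) (D : ℝ → ℝ → ℝ) (hab : a ≤ b) (h0 : ∀ r, D r r ≤ 0)
    (htri : ∀ r s t, D r t ≤ D r s + D s t)
    (hloc : ∀ t ∈ Icc a b, ∀ᶠ q : ℝ × ℝ in 𝓝 (t, t), D q.1 q.2 ≤ C * |q.2 - q.1|) :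
    D a b ≤ C * (b - a) := by
  have hN : ∀ t : Icc a b, ∃ N : Set ℝ, IsOpen N ∧ (t : ℝ) ∈ N ∧
      ∀ p ∈ N, ∀ q ∈ N, D p q ≤ C * |q - p| := by
    intro t
    have h1 := hloc t.1 t.2
    rw [nhds_prod_eq, Filter.eventually_prod_self_iff'] at h1
    obtain ⟨s, hs, hs2⟩ := h1
    obtain ⟨N, hNs, hNo, htN⟩ := mem_nhds_iff.1 hs
    exact ⟨N, hNo, htN, fun p hp q hq => hs2 p (hNs hp) q (hNs hq)⟩
  choose N hNo hNt hND using hN
  obtain ⟨t, ht0, htm, ⟨m, hm⟩, htN⟩ := exists_monotone_Icc_subset_open_cover_Icc hab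
    (c := fun i : Icc a b => ((↑) : Icc a b → ℝ) ⁻¹' (N i))
    (fun i => (hNo i).preimage continuous_subtype_val)
    (fun s _ => mem_iUnion.2 ⟨s, hNt s⟩)
  have hind : ∀ n, D a (t n) ≤ C * ((t n : ℝ) - a) := by
    intro n
    induction n with
    | zero => rw [ht0]; simpa using h0 a
    | succ n ih =>
      obtain ⟨i, hi⟩ := htN n
      have hle : t n ≤ t (n + 1) := htm (Nat.le_succ n)
      have hle' : (t n : ℝ) ≤ t (n + 1) := hle
      have h1 : (t n : ℝ) ∈ N i := hi (left_mem_Icc.2 hle)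
      have h2 : (t (n + 1) : ℝ) ∈ N i := hi (right_mem_Icc.2 hle)
      have h3 := hND i _ h1 _ h2
      rw [abs_of_nonneg (sub_nonneg.2 hle')] at h3
      have h4 := htri a (t n) (t (n + 1))
      nlinarith
  have := hind m
  rwa [hm m le_rfl] at this

theorem INT (E : Type*) [NormedAddCommGroup E] [NormedSpace ℝ E] [FiniteDimensional ℝ E]
    (M : Type*) [TopologicalSpace M] [ChartedSpace E M] [IsManifold 𝓘(ℝ, E) ∞ M]
    (hCHG : S_CHG E M) : S_INT E M := by
  intro G c γ a b x p K hc hK hab hsp hp0 hadd hpK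
  have key : ∀ δ > 0, p (ch x (γ b) - ch x (γ a) : E) ≤ K * (c + δ) * (b - a) := by
    intro δ hδ
    refine chain a b (K * (c + δ)) (fun r s => p (ch x (γ s) - ch x (γ r) : E)) hab ?_ ?_ ?_
    · intro r
      simp [hp0]
    · intro r s t
      have h1 := hadd (ch x (γ s) - ch x (γ r) : E) (ch x (γ t) - ch x (γ s))
      have h2 : (ch x (γ s) - ch x (γ r) : E) + (ch x (γ t) - ch x (γ s))
          = ch x (γ t) - ch x (γ r) := by abel
      rw [h2] at h1
      exact h1
    · intro t ht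
      obtain ⟨hs, hx⟩ := hsp t ht
      have h1 := (hCHG G c γ t x hc hs.1 hx).1 hs δ hδ
      filter_upwards [h1] with q hq
      calc p (ch x (γ q.2) - ch x (γ q.1) : E)
          ≤ K * nm (G.G x (ch x (γ t))) (ch x (γ q.2) - ch x (γ q.1) : E) := hpK t ht _
        _ ≤ K * ((c + δ) * |q.2 - q.1|) := mul_le_mul_of_nonneg_left hq hK
        _ = K * (c + δ) * |q.2 - q.1| := by ring
  refine le_of_forall_pos_le_add fun ε hε => ?_
  have hB : 0 ≤ K * (b - a) := mul_nonneg hK (sub_nonneg.2 hab)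
  have h1 := key (ε / (K * (b - a) + 1)) (div_pos hε (by linarith))
  refine h1.trans ?_
  have h2 : K * (c + ε / (K * (b - a) + 1)) * (b - a)
      = K * c * (b - a) + (K * (b - a)) * (ε / (K * (b - a) + 1)) := by ring
  rw [h2]
  have h3 : (K * (b - a)) * (ε / (K * (b - a) + 1)) ≤ ε := by
    rw [mul_div_assoc', div_le_iff₀ (by linarith)]
    nlinarith
  linarith

end Pool.Agent.Helper65.SRD
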